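import Mathlib

/-!
# Sequences of flips on products: data and known facts
-/

namespace Pool.Agent.N522.FL

/-- A class of projective varieties or pairs with the flip relation. -/
structure Theory where
  /-- isomorphism classes of projective varieties or pairs of the class considered -/
  Var : Type
  /-- `Flip X X'`: `X'` is the flip of a negative extremal contraction of `X` -/
  Flip : Var → Var → Prop
  /-- products -/
  prod : Var → Var → Var
  /-- members for which all sequences of flips are known to be finite -/
  Known : Var → Prop

variable {T : Theory}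

/-- Every sequence of flips starting from `X` is finite. -/
def Term (X : T.Var) : Prop := ¬ ∃ s : ℕ → T.Var, s 0 = X ∧ ∀ n, T.Flip (s n) (s (n + 1))

/-- Known facts. -/
structure Facts (T : Theory) : Prop where
  /-- Negative extremal rays are spanned by rational curves, and the class of a rational curve in a
  product is the sum of the classes of its images in the two factors; so the extremal ray comes from
  one of the factors, and so do the contraction and the flip. -/
  flip_prod : ∀ X Y Z : T.Var, T.Flip (T.prod X Y) Z ↔
    (∃ X', T.Flip X X' ∧ Z = T.prod X' Y) ∨ (∃ Y', T.Flip Y Y' ∧ Z = T.prod X Y')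
  /-- the known cases -/
  known : ∀ X : T.Var, T.Known X → Term X

theorem term_iff_acc (X : T.Var) : Term X ↔ Acc (fun b a => T.Flip a b) X := by
  constructor
  · intro h
    by_contra hacc
    have hstep : ∀ x : {x : T.Var // ¬ Acc (fun b a => T.Flip a b) x},
        ∃ y : {x : T.Var // ¬ Acc (fun b a => T.Flip a b) x}, T.Flip x.1 y.1 := by
      rintro ⟨x, hx⟩
      by_contra hcon
      push Not at hcon
      apply hx
      constructor
      intro y hy
      by_contra hy'
      exact hcon ⟨y, hy'⟩ hy
    choose g hg using hstep
    refine h ⟨fun n => (g^[n] ⟨X, hacc⟩).1, rfl, fun n => ?_⟩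
    show T.Flip (g^[n] ⟨X, hacc⟩).1 (g^[n + 1] ⟨X, hacc⟩).1
    rw [Function.iterate_succ_apply']
    exact hg _
  · rintro h ⟨s, hs, hs'⟩
    have key : ∀ x : T.Var, Acc (fun b a => T.Flip a b) x → ∀ n, s n ≠ x := by
      intro x hx
      induction hx with
      | intro x _ ih =>
        intro n hn
        have h1 := hs' n
        rw [hn] at h1
        exact ih (s (n + 1)) h1 (n + 1) rfl
    exact key X h 0 hs

theorem acc_prod (F : Facts T) {X Y : T.Var} (hX : Acc (fun b a => T.Flip a b) X)
    (hY : Acc (fun b a => T.Flip a b) Y) : Acc (fun b a => T.Flip a b) (T.prod X Y) := by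
  induction hX generalizing Y with
  | intro X _ ihX =>
    induction hY with
    | intro Y hY' ihY =>
      constructor
      intro Z hZ
      rcases (F.flip_prod X Y Z).mp hZ with ⟨X', hX', rfl⟩ | ⟨Y', hY'', rfl⟩
      · exact ihX X' hX' ⟨Y, hY'⟩
      · exact ihY Y' hY''

/-- Termination for products. -/
theorem term_prod (F : Facts T) (X Y : T.Var) : Term (T.prod X Y) ↔ Term X ∧ Term Y := by
  constructor
  · intro h
    constructor
    · rintro ⟨s, hs, hs'⟩
      refine h ⟨fun n => T.prod (s n) Y, by simp only [hs], fun n => ?_⟩
      exact (F.flip_prod _ _ _).mpr (Or.inl ⟨s (n + 1), hs' n, rfl⟩)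
    · rintro ⟨s, hs, hs'⟩
      refine h ⟨fun n => T.prod X (s n), by simp only [hs], fun n => ?_⟩
      exact (F.flip_prod _ _ _).mpr (Or.inr ⟨s (n + 1), hs' n, rfl⟩)
  · rintro ⟨hX, hY⟩
    rw [term_iff_acc] at *
    exact acc_prod F hX hY

/-- Products of members of a class. -/
inductive Gen (T : Theory) (S : T.Var → Prop) : T.Var → Prop
  | base (X : T.Var) : S X → Gen T S X
  | prod (X Y : T.Var) : Gen T S X → Gen T S Y → Gen T S (T.prod X Y)

theorem term_gen (F : Facts T) (X : T.Var) (h : Gen T T.Known X) : Term X := by
  induction h with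
  | base X h => exact F.known X h
  | prod X Y _ _ ih1 ih2 => exact (term_prod F X Y).mpr ⟨ih1, ih2⟩

end Pool.Agent.N522.FL
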